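import Pool.Agent.H45.Nev.TestSys

/-!
# Null sets and disintegration (MP_343136_an, job Q2)
-/

open MeasureTheory Set Metric Filter Topology ProbabilityTheory
open scoped ContDiff ENNReal

set_option linter.unusedSectionVars false

namespace Pool.Agent.H38.NevQ2

open Pool.Agent.H45.Nev

variable {M : Type*} [TopologicalSpace M] [MeasurableSpace M] [BorelSpace M]
  {Y : Type*} [NormedAddCommGroup Y] [NormedSpace ℝ Y] [FiniteDimensional ℝ Y]
  [MeasurableSpace Y] [BorelSpace Y]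

lemma mem_target {Λ : Lam M Y} {i : Λ.ι} {z : ℂ} {t : Y} (hz : z ∈ ball (0 : ℂ) 1)
    (ht : t ∈ Λ.W i) : (z, t) ∈ (Λ.box i).target := by
  rw [Λ.target_eq i]
  exact ⟨hz, ht⟩

lemma box_symm {Λ : Lam M Y} {i : Λ.ι} {z : ℂ} {t : Y} (hz : z ∈ ball (0 : ℂ) 1)
    (ht : t ∈ Λ.W i) : Λ.box i ((Λ.box i).symm (z, t)) = (z, t) :=
  (Λ.box i).right_inv (mem_target hz ht)

lemma symm_mem {Λ : Lam M Y} {i : Λ.ι} {z : ℂ} {t : Y} (hz : z ∈ ball (0 : ℂ) 1)
    (ht : t ∈ Λ.W i) : (Λ.box i).symm (z, t) ∈ (Λ.box i).source :=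
  (Λ.box i).map_target (mem_target hz ht)

lemma box_mem {Λ : Lam M Y} {i : Λ.ι} {x : M} (hx : x ∈ (Λ.box i).source) :
    (Λ.box i x).1 ∈ ball (0 : ℂ) 1 ∧ (Λ.box i x).2 ∈ Λ.W i := by
  have := (Λ.box i).map_source hx
  rw [Λ.target_eq i] at this
  exact this

lemma continuousOn_slice {Λ : Lam M Y} {i : Λ.ι} {t : Y} (ht : t ∈ Λ.W i) :
    ContinuousOn (fun z => (Λ.box i).symm (z, t)) (ball (0 : ℂ) 1) :=
  (Λ.box i).continuousOn_symm.comp (by fun_prop) (fun _ hz => mem_target hz ht)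

/-- goodness of a transversal point -/
def Good (Λ : Lam M Y) (μ : Measure M) {i : Λ.ι} (d : Disint Λ μ i) (t : Y) : Prop :=
  t ∈ Λ.W i ∧ Measurable (d.h t) ∧ ContinuousOn (d.h t) (ball 0 1) ∧
    (∀ z ∈ ball (0 : ℂ) 1, 0 < d.h t z) ∧
    d.κ t = (volume.restrict (ball (0 : ℂ) 1)).withDensity
      (fun z => ENNReal.ofReal (Λ.ρ i (z, t) * d.h t z))

variable {Λ : Lam M Y} {μ : Measure M} {i : Λ.ι} (d : Disint Λ μ i)

lemma Good.cont {t : Y} (h : Good Λ μ d t) :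
    ContinuousOn (fun z => Λ.ρ i (z, t) * d.h t z) (ball (0 : ℂ) 1) :=
  ((Λ.ρ_cont i).comp (by fun_prop) (fun _ hz => mem_target hz h.1)).mul h.2.2.1

lemma Good.pos {t : Y} (h : Good Λ μ d t) {z : ℂ} (hz : z ∈ ball (0 : ℂ) 1) :
    0 < Λ.ρ i (z, t) * d.h t z :=
  mul_pos ((Λ.lo_pos i).trans_le (Λ.ρ_lo i _ (mem_target hz h.1))) (h.2.2.2.1 z hz)

lemma Good.dens_aemeas {t : Y} (h : Good Λ μ d t) :
    AEMeasurable (fun z => ENNReal.ofReal (Λ.ρ i (z, t) * d.h t z))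
      (volume.restrict (ball (0 : ℂ) 1)) :=
  (h.cont d).aemeasurable measurableSet_ball |>.ennreal_ofReal

lemma Good.ac1 {t : Y} (h : Good Λ μ d t) : d.κ t ≪ volume.restrict (ball (0 : ℂ) 1) := by
  rw [h.2.2.2.2]
  exact withDensity_absolutelyContinuous _ _

lemma Good.ac2 {t : Y} (h : Good Λ μ d t) : volume.restrict (ball (0 : ℂ) 1) ≪ d.κ t := by
  rw [h.2.2.2.2]
  apply withDensity_absolutelyContinuous' (h.dens_aemeas d)
  filter_upwards [ae_restrict_mem measurableSet_ball] with z hz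
  have := h.pos d hz
  simp only [ne_eq, ENNReal.ofReal_eq_zero, not_le]
  exact this

lemma Good.slice_aemeas {t : Y} (h : Good Λ μ d t) :
    AEMeasurable (fun z => (Λ.box i).symm (z, t)) (volume.restrict (ball (0 : ℂ) 1)) :=
  (continuousOn_slice h.1).aemeasurable measurableSet_ball

lemma ae_good : ∀ᵐ t ∂d.ν, Good Λ μ d t := d.good

/-- Null sets in a flow box. -/
lemma null_iff (N : Set M) (hN : MeasurableSet N) :
    μ (N ∩ (Λ.box i).source) = 0 ↔ ∀ᵐ t ∂d.ν, ∀ᵐ z ∂(volume.restrict (ball (0 : ℂ) 1)),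
      (Λ.box i).symm (z, t) ∉ N := by
  have h1 : ∫⁻ x in (Λ.box i).source, N.indicator 1 x ∂μ = μ (N ∩ (Λ.box i).source) := by
    rw [lintegral_indicator_one hN, Measure.restrict_apply hN]
  have hm : Measurable (N.indicator (1 : M → ℝ≥0∞)) := measurable_one.indicator hN
  rw [← h1, d.lintegral_eq _ hm, lintegral_eq_zero_iff' (d.meas_fibre _ hm)]
  have key : ∀ t, Good Λ μ d t →
      ((∫⁻ z, N.indicator 1 ((Λ.box i).symm (z, t)) ∂d.κ t) = 0 ↔
        ∀ᵐ z ∂(volume.restrict (ball (0 : ℂ) 1)), (Λ.box i).symm (z, t) ∉ N) := by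
    intro t ht
    have hmz : AEMeasurable (fun z => N.indicator (1 : M → ℝ≥0∞) ((Λ.box i).symm (z, t)))
        (d.κ t) := hm.comp_aemeasurable ((ht.slice_aemeas d).mono_ac (ht.ac1 d))
    rw [lintegral_eq_zero_iff' hmz]
    have h2 : ∀ z, (N.indicator (1 : M → ℝ≥0∞) ((Λ.box i).symm (z, t)) = 0 ↔
        (Λ.box i).symm (z, t) ∉ N) := by
      intro z
      by_cases hz : (Λ.box i).symm (z, t) ∈ N
      · simp [hz]
      · simp [hz]
    constructor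
    · intro h
      filter_upwards [(ht.ac2 d).ae_le h] with z hz
      exact (h2 z).1 hz
    · intro h
      filter_upwards [(ht.ac1 d).ae_le h] with z hz
      exact (h2 z).2 hz
  constructor
  · intro h
    filter_upwards [h, ae_good d] with t h1 h2
    exact (key t h2).1 h1
  · intro h
    filter_upwards [h, ae_good d] with t h1 h2
    exact (key t h2).2 h1

open Classical in
/-- A measurable extension of the transversal coordinate. -/
lemma measurableSet_snd (T : Set Y) (hT : MeasurableSet T) :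
    MeasurableSet {x | x ∈ (Λ.box i).source ∧ (Λ.box i x).2 ∈ T} := by
  have hs : MeasurableSet (Λ.box i).source := (Λ.box i).open_source.measurableSet
  have hm : Measurable ((Λ.box i).source.piecewise (fun x => (Λ.box i x).2) (fun _ => (0 : Y))) :=
    ContinuousOn.measurable_piecewise
      (continuous_snd.comp_continuousOn (Λ.box i).continuousOn) continuousOn_const hs
  have : {x | x ∈ (Λ.box i).source ∧ (Λ.box i x).2 ∈ T} = (Λ.box i).source ∩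
      ((Λ.box i).source.piecewise (fun x => (Λ.box i x).2) (fun _ => (0 : Y))) ⁻¹' T := by
    ext x
    constructor
    · rintro ⟨h1, h2⟩
      refine ⟨h1, ?_⟩
      rw [mem_preimage, piecewise_eq_of_mem _ _ _ h1]
      exact h2
    · rintro ⟨h1, h2⟩
      rw [mem_preimage, piecewise_eq_of_mem _ _ _ h1] at h2
      exact ⟨h1, h2⟩
  rw [this]
  exact hs.inter (hm hT)

/-- Saturation in a box of a null set of plaques is null. -/
lemma null_plaques (T : Set Y) (hT : d.ν T = 0) :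
    μ {x | x ∈ (Λ.box i).source ∧ (Λ.box i x).2 ∈ T} = 0 := by
  set T' := toMeasurable d.ν T with hT'
  have hm : MeasurableSet T' := measurableSet_toMeasurable _ _
  have h0 : d.ν T' = 0 := by rw [hT', measure_toMeasurable, hT]
  have hsub : {x | x ∈ (Λ.box i).source ∧ (Λ.box i x).2 ∈ T} ⊆
      {x | x ∈ (Λ.box i).source ∧ (Λ.box i x).2 ∈ T'} ∩ (Λ.box i).source := by
    rintro x ⟨h1, h2⟩
    exact ⟨⟨h1, subset_toMeasurable _ _ h2⟩, h1⟩
  refine measure_mono_null hsub ?_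
  rw [null_iff d _ (measurableSet_snd T' hm)]
  have h1 : ∀ᵐ t ∂d.ν, t ∉ T' := by
    rw [ae_iff]
    simpa using h0
  filter_upwards [h1, ae_good d] with t ht hg
  filter_upwards [ae_restrict_mem measurableSet_ball] with z hz
  rintro ⟨-, h⟩
  rw [box_symm hz hg.1] at h
  exact ht h

/-- leafwise open sets -/
def LeafOpen (Λ : Lam M Y) (S : Set M) : Prop :=
  ∀ x ∈ S, ∀ i, x ∈ (Λ.box i).source →
    ∀ᶠ z in 𝓝 (Λ.box i x).1, (Λ.box i).symm (z, (Λ.box i x).2) ∈ S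

/-- union of families of plaques -/
def plq (Λ : Lam M Y) (T : Λ.ι → Set Y) : Set M :=
  {x | ∃ i, x ∈ (Λ.box i).source ∧ (Λ.box i x).2 ∈ T i}

lemma leafOpen_plq (T : Λ.ι → Set Y) : LeafOpen Λ (plq Λ T) := by
  rintro x ⟨i, hxi, hxT⟩ j hxj
  have hp : Λ.box j x ∈ (Λ.box j).target := (Λ.box j).map_source hxj
  have hsx : (Λ.box j).symm (Λ.box j x) = x := (Λ.box j).left_inv hxj
  have h1 := Λ.compat i j (Λ.box j x) hp (by rw [hsx]; exact hxi)
  have hc : ContinuousAt (fun z => (Λ.box j).symm (z, (Λ.box j x).2)) (Λ.box j x).1 := by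
    have h2 : ContinuousAt (Λ.box j).symm (Λ.box j x) := (Λ.box j).continuousAt_symm hp
    have h3 : ContinuousAt (fun z : ℂ => (z, (Λ.box j x).2)) (Λ.box j x).1 := by fun_prop
    exact ContinuousAt.comp (f := fun z : ℂ => (z, (Λ.box j x).2)) (g := (Λ.box j).symm) h2 h3
  have h4 : ∀ᶠ z in 𝓝 (Λ.box j x).1,
      (Λ.box j).symm (z, (Λ.box j x).2) ∈ (Λ.box i).source := by
    apply hc.eventually_mem
    apply (Λ.box i).open_source.mem_nhds
    rw [Prod.mk.eta, hsx]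
    exact hxi
  filter_upwards [h1, h4] with z hz1 hz2
  refine ⟨i, hz2, ?_⟩
  rw [hz1, hsx]
  exact hxT

/-- the plaques meeting `S` -/
def trc (Λ : Lam M Y) (S : Set M) (i : Λ.ι) : Set Y :=
  {t | ∃ y ∈ S, y ∈ (Λ.box i).source ∧ (Λ.box i y).2 = t}

lemma trc_null {S : Set M} (hS : LeafOpen Λ S) (h0 : μ S = 0) : d.ν (trc Λ S i) = 0 := by
  set S' := toMeasurable μ S with hS'
  have hm : MeasurableSet S' := measurableSet_toMeasurable _ _
  have h0' : μ (S' ∩ (Λ.box i).source) = 0 := by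
    refine measure_mono_null inter_subset_left ?_
    rw [hS', measure_toMeasurable, h0]
  rw [null_iff d _ hm] at h0'
  have : ∀ᵐ t ∂d.ν, t ∉ trc Λ S i := by
    filter_upwards [h0', ae_good d] with t ht hg
    rintro ⟨y, hyS, hys, rfl⟩
    have h1 := hS y hyS i hys
    have h2 : ∀ᶠ z in 𝓝 (Λ.box i y).1, z ∈ ball (0 : ℂ) 1 :=
      isOpen_ball.mem_nhds (box_mem hys).1
    obtain ⟨δ, hδ, hδ'⟩ := Metric.eventually_nhds_iff_ball.1 (h1.and h2)
    rw [ae_restrict_iff' measurableSet_ball] at ht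
    have h3 : volume (ball (Λ.box i y).1 δ) = 0 := by
      refine measure_mono_null ?_ (ae_iff.1 ht)
      intro z hz
      rw [mem_ofPred_eq, Classical.not_imp, not_not]
      exact ⟨(hδ' z hz).2, subset_toMeasurable _ _ (hδ' z hz).1⟩
    exact (measure_ball_pos volume _ hδ).ne' h3
  rw [ae_iff] at this
  simpa using this

lemma plq_null (d : ∀ i, Disint Λ μ i) (T : Λ.ι → Set Y) (hT : ∀ i, (d i).ν (T i) = 0) :
    μ (plq Λ T) = 0 := by
  have : plq Λ T = ⋃ i, {x | x ∈ (Λ.box i).source ∧ (Λ.box i x).2 ∈ T i} := by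
    ext x; simp [plq]
  rw [this, measure_iUnion_null_iff]
  intro i
  exact null_plaques (d i) (T i) (hT i)

/-- iterated saturation -/
def satN (Λ : Lam M Y) (Z : Set M) : ℕ → Set M
  | 0 => Z
  | n + 1 => plq Λ (trc Λ (satN Λ Z n))

/-- saturation -/
def sat (Λ : Lam M Y) (Z : Set M) : Set M := ⋃ n, satN Λ Z n

lemma satN_props (d : ∀ i, Disint Λ μ i) {Z : Set M} (hZ : LeafOpen Λ Z) (h0 : μ Z = 0) (n : ℕ) :
    LeafOpen Λ (satN Λ Z n) ∧ μ (satN Λ Z n) = 0 := by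
  induction n with
  | zero => exact ⟨hZ, h0⟩
  | succ n ih =>
    exact ⟨leafOpen_plq _, plq_null d _ (fun i => trc_null (d i) ih.1 ih.2)⟩

lemma sat_null (d : ∀ i, Disint Λ μ i) {Z : Set M} (hZ : LeafOpen Λ Z) (h0 : μ Z = 0) :
    μ (sat Λ Z) = 0 := by
  rw [sat, measure_iUnion_null_iff]
  exact fun n => (satN_props d hZ h0 n).2

/-- points of the same plaque are simultaneously in the saturation -/
lemma sat_plaque {Z : Set M} {i : Λ.ι} {x y : M} (hx : x ∈ (Λ.box i).source)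
    (hy : y ∈ (Λ.box i).source) (hxy : (Λ.box i x).2 = (Λ.box i y).2) (h : x ∈ sat Λ Z) :
    y ∈ sat Λ Z := by
  obtain ⟨n, hn⟩ := mem_iUnion.1 h
  exact mem_iUnion.2 ⟨n + 1, i, hy, x, hn, hx, hxy⟩

lemma local_disc {φ : ℂ → M} {σ : ℂ → ℝ} (hφ : Λ.IsDisc φ σ) {ξ : ℂ} (hξ : ξ ∈ ball (0 : ℂ) 1) :
    ∃ i, ∃ t ∈ Λ.W i, ∃ h : ℂ → ℂ, AnalyticAt ℂ h ξ ∧ deriv h ξ ≠ 0 ∧
    h ξ ∈ ball (0 : ℂ) 1 ∧ ∀ᶠ ζ in 𝓝 ξ, φ ζ = (Λ.box i).symm (h ζ, t) ∧ h ζ ∈ ball (0 : ℂ) 1 ∧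
      φ ζ ∈ (Λ.box i).source ∧ Λ.box i (φ ζ) = (h ζ, t) := by
  obtain ⟨i, t, ht, h, ha, hd, hb, he⟩ := hφ.loc ξ hξ
  refine ⟨i, t, ht, h, ha, hd, hb, ?_⟩
  have h1 : ∀ᶠ ζ in 𝓝 ξ, h ζ ∈ ball (0 : ℂ) 1 :=
    ha.continuousAt.eventually_mem (isOpen_ball.mem_nhds hb)
  filter_upwards [he, h1] with ζ h2 h3
  refine ⟨h2.1, h3, ?_, ?_⟩
  · rw [h2.1]; exact symm_mem h3 ht
  · rw [h2.1]; exact box_symm h3 ht

lemma disc_avoid {φ : ℂ → M} {σ : ℂ → ℝ} (hφ : Λ.IsDisc φ σ) {Z : Set M}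
    (h0 : φ 0 ∉ sat Λ Z) : ∀ ξ ∈ ball (0 : ℂ) 1, φ ξ ∉ sat Λ Z := by
  -- the set of points mapped to `sat` and its complement are both open
  have key : ∀ ξ ∈ ball (0 : ℂ) 1, ∀ᶠ ζ in 𝓝 ξ, (φ ζ ∈ sat Λ Z ↔ φ ξ ∈ sat Λ Z) := by
    intro ξ hξ
    obtain ⟨i, t, ht, h, ha, hd, hb, he⟩ := local_disc hφ hξ
    have h1 := he.self_of_nhds
    filter_upwards [he] with ζ hζ
    constructor
    · exact sat_plaque hζ.2.2.1 h1.2.2.1 (by rw [hζ.2.2.2, h1.2.2.2])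
    · exact sat_plaque h1.2.2.1 hζ.2.2.1 (by rw [hζ.2.2.2, h1.2.2.2])
  intro ξ hξ hcon
  have hpre : IsPreconnected (ball (0 : ℂ) 1) := (convex_ball 0 1).isPreconnected
  have hU : IsOpen {ζ | ζ ∈ ball (0 : ℂ) 1 ∧ φ ζ ∈ sat Λ Z} := by
    rw [isOpen_iff_mem_nhds]
    rintro ζ ⟨h1, h2⟩
    filter_upwards [key ζ h1, isOpen_ball.mem_nhds h1] with w h3 h4
    exact ⟨h4, h3.2 h2⟩
  have hV : IsOpen {ζ | ζ ∈ ball (0 : ℂ) 1 ∧ φ ζ ∉ sat Λ Z} := by
    rw [isOpen_iff_mem_nhds]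
    rintro ζ ⟨h1, h2⟩
    filter_upwards [key ζ h1, isOpen_ball.mem_nhds h1] with w h3 h4
    exact ⟨h4, fun h5 => h2 (h3.1 h5)⟩
  obtain ⟨w, -, h1, h2⟩ := hpre _ _ hU hV
    (by
      intro ζ hζ
      by_cases h : φ ζ ∈ sat Λ Z
      · exact Or.inl ⟨hζ, h⟩
      · exact Or.inr ⟨hζ, h⟩)
    ⟨ξ, hξ, hξ, hcon⟩ ⟨0, mem_ball_self one_pos, mem_ball_self one_pos, h0⟩
  exact h2.2 h1.2

end Pool.Agent.H38.NevQ2
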