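import Pool.Agent.H45.Nev.Kernel

/-!
# Plane lemmas: logarithmic kernel and change of variables (MP_343136_an, job Q2)
-/

open MeasureTheory Set Metric Filter Topology
open scoped ContDiff ENNReal

set_option linter.unusedSectionVars false

namespace Pool.Agent.H38.NevQ2

open Pool.Agent.H45.Nev

/-- the logarithmic kernel -/
noncomputable def K (u : ℂ) : ℝ≥0∞ := ENNReal.ofReal (Real.log (2 / ‖u‖))

lemma measurable_K : Measurable K :=
  (Real.measurable_log.comp (measurable_const.div measurable_norm)).ennreal_ofReal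

/-- its integral -/
noncomputable def KI : ℝ≥0∞ := ∫⁻ u in ball (0 : ℂ) 2, K u

lemma KI_lt_top : KI < ⊤ := by
  have h := lintegral_nev (fun _ => 1) measurable_const 2
  simp only [mul_one] at h
  have h2 : KI = ∫⁻ t in Ioo (0 : ℝ) 2, ENNReal.ofReal t⁻¹ * ∫⁻ _ in ball (0 : ℂ) t, 1 := by
    rw [h]; rfl
  rw [h2]
  have h3 : ∀ t ∈ Ioo (0 : ℝ) 2, ENNReal.ofReal t⁻¹ * ∫⁻ _ in ball (0 : ℂ) t, 1 ≤
      2 * (NNReal.pi : ℝ≥0∞) := by
    intro t ht
    rw [lintegral_const, one_mul, Measure.restrict_apply MeasurableSet.univ, univ_inter,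
      Complex.volume_ball]
    have h4 : ENNReal.ofReal t⁻¹ * (ENNReal.ofReal t ^ 2 * (NNReal.pi : ℝ≥0∞)) =
        ENNReal.ofReal t * NNReal.pi := by
      rw [← mul_assoc, ← ENNReal.ofReal_pow ht.1.le, ← ENNReal.ofReal_mul (inv_nonneg.2 ht.1.le)]
      congr 2
      field_simp [ht.1.ne']
    rw [h4]
    gcongr
    rw [show (2 : ℝ≥0∞) = ENNReal.ofReal 2 by simp]
    exact ENNReal.ofReal_le_ofReal ht.2.le
  calc ∫⁻ t in Ioo (0 : ℝ) 2, ENNReal.ofReal t⁻¹ * ∫⁻ _ in ball (0 : ℂ) t, 1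
      ≤ ∫⁻ t in Ioo (0 : ℝ) 2, 2 * (NNReal.pi : ℝ≥0∞) := setLIntegral_mono' measurableSet_Ioo h3
    _ = 2 * (NNReal.pi : ℝ≥0∞) * volume (Ioo (0 : ℝ) 2) := by
        rw [lintegral_const, Measure.restrict_apply MeasurableSet.univ, univ_inter]
    _ < ⊤ := by
        rw [Real.volume_Ioo]
        exact ENNReal.mul_lt_top (ENNReal.mul_lt_top (by simp) ENNReal.coe_lt_top)
          ENNReal.ofReal_lt_top

lemma K_int {z : ℂ} (hz : z ∈ ball (0 : ℂ) 1) : ∫⁻ w in ball (0 : ℂ) 1, K (z - w) ≤ KI := by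
  rw [← lintegral_indicator measurableSet_ball, KI, ← lintegral_indicator measurableSet_ball,
    ← lintegral_sub_left_eq_self ((ball (0 : ℂ) 2).indicator K) z]
  apply lintegral_mono
  intro w
  by_cases hw : w ∈ ball (0 : ℂ) 1
  · change (ball (0 : ℂ) 1).indicator (fun w => K (z - w)) w ≤
      (ball (0 : ℂ) 2).indicator K (z - w)
    rw [indicator_of_mem hw, indicator_of_mem]
    simp only [mem_ball, dist_zero_right] at hz hw ⊢
    calc ‖z - w‖ ≤ ‖z‖ + ‖w‖ := norm_sub_le _ _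
      _ < 2 := by linarith
  · rw [indicator_of_notMem hw]
    exact zero_le

lemma det_restrict (c : ℂ) :
    ((ContinuousLinearMap.toSpanSingleton ℂ c).restrictScalars ℝ : ℂ →L[ℝ] ℂ).det = ‖c‖ ^ 2 := by
  have h1 : (((ContinuousLinearMap.toSpanSingleton ℂ c).restrictScalars ℝ : ℂ →L[ℝ] ℂ) :
      ℂ →ₗ[ℝ] ℂ) = Algebra.lmul ℝ ℂ c := by
    ext x
    simp [mul_comm]
  rw [ContinuousLinearMap.det, h1, ← Algebra.norm_apply, Algebra.norm_complex_apply,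
    Complex.normSq_eq_norm_sq]

/-- Change of variables near a regular point, as an inequality. -/
lemma cov {h : ℂ → ℂ} {ξ : ℂ} (ha : AnalyticAt ℂ h ξ) (hd : deriv h ξ ≠ 0) {V : Set ℂ}
    (hV : V ∈ 𝓝 (h ξ)) : ∀ᶠ δ in 𝓝[>] (0 : ℝ), ∀ g : ℂ → ℝ≥0∞,
      ∫⁻ ζ in ball ξ δ, g (h ζ) ≤
        (ENNReal.ofReal ((‖deriv h ξ‖ / 2) ^ 2))⁻¹ * ∫⁻ z in V, g z := by
  have hs := (ha.hasStrictDerivAt).hasStrictFDerivAt_equiv hd
  set e := hs.toOpenPartialHomeomorph h with he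
  have he1 : ∀ᶠ ζ in 𝓝 ξ, ζ ∈ e.source :=
    e.open_source.mem_nhds hs.mem_toOpenPartialHomeomorph_source
  have hinj : InjOn h e.source := e.injOn
  have h1 : ∀ᶠ ζ in 𝓝 ξ, ‖deriv h ξ‖ / 2 < ‖deriv h ζ‖ := by
    have : Tendsto (fun ζ => ‖deriv h ζ‖) (𝓝 ξ) (𝓝 ‖deriv h ξ‖) :=
      ha.deriv.continuousAt.norm
    exact this.eventually (lt_mem_nhds (by
      have := norm_pos_iff.2 hd
      linarith))
  have h2 : ∀ᶠ ζ in 𝓝 ξ, AnalyticAt ℂ h ζ := ha.eventually_analyticAt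
  have h3 : ∀ᶠ ζ in 𝓝 ξ, h ζ ∈ V := ha.continuousAt.eventually_mem hV
  obtain ⟨δ₀, hδ₀, hδ₀'⟩ := Metric.eventually_nhds_iff_ball.1 (he1.and (h1.and (h2.and h3)))
  have hc : 0 < (‖deriv h ξ‖ / 2) ^ 2 := by
    have := norm_pos_iff.2 hd
    positivity
  filter_upwards [Ioo_mem_nhdsGT hδ₀] with δ hδ g
  have hsub : ball ξ δ ⊆ ball ξ δ₀ := ball_subset_ball hδ.2.le
  have hder : ∀ ζ ∈ ball ξ δ, HasFDerivWithinAt h
      ((ContinuousLinearMap.toSpanSingleton ℂ (deriv h ζ)).restrictScalars ℝ) (ball ξ δ) ζ := by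
    intro ζ hζ
    have := (hδ₀' ζ (hsub hζ)).2.2.1.differentiableAt.hasDerivAt.hasFDerivAt
    exact (this.restrictScalars ℝ).hasFDerivWithinAt
  have hcv := lintegral_image_eq_lintegral_abs_det_fderiv_mul volume measurableSet_ball hder
    (hinj.mono (fun ζ hζ => (hδ₀' ζ (hsub hζ)).1)) g
  have hle : ∫⁻ ζ in ball ξ δ, ENNReal.ofReal ((‖deriv h ξ‖ / 2) ^ 2) * g (h ζ) ≤
      ∫⁻ z in V, g z := by
    calc ∫⁻ ζ in ball ξ δ, ENNReal.ofReal ((‖deriv h ξ‖ / 2) ^ 2) * g (h ζ)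
        ≤ ∫⁻ ζ in ball ξ δ, ENNReal.ofReal |((ContinuousLinearMap.toSpanSingleton ℂ
            (deriv h ζ)).restrictScalars ℝ : ℂ →L[ℝ] ℂ).det| * g (h ζ) := by
          apply setLIntegral_mono' measurableSet_ball
          intro ζ hζ
          gcongr
          rw [det_restrict, abs_of_nonneg (by positivity)]
          have := (hδ₀' ζ (hsub hζ)).2.1
          gcongr
      _ = ∫⁻ z in h '' ball ξ δ, g z := hcv.symm
      _ ≤ ∫⁻ z in V, g z := by
          apply lintegral_mono_set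
          rintro _ ⟨ζ, hζ, rfl⟩
          exact (hδ₀' ζ (hsub hζ)).2.2.2
  rw [lintegral_const_mul' _ _ ENNReal.ofReal_ne_top] at hle
  rw [mul_comm, ← div_eq_mul_inv, ENNReal.le_div_iff_mul_le (Or.inl (ENNReal.ofReal_pos.2 hc).ne')
    (Or.inl ENNReal.ofReal_ne_top), mul_comm]
  exact hle

end Pool.Agent.H38.NevQ2
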