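import Pool.Agent.H38.Nev.Null
import Pool.Agent.H38.Nev.Plane

/-!
# Leafwise transfer of integrability (MP_343136_an, job Q2)
-/

open MeasureTheory Set Metric Filter Topology ProbabilityTheory
open scoped ContDiff ENNReal

set_option linter.unusedSectionVars false

namespace Pool.Agent.H38.NevQ2

open Pool.Agent.H45.Nev

variable {M : Type*} [TopologicalSpace M] [T2Space M] [MeasurableSpace M] [BorelSpace M]
  [Nonempty M]
  {Y : Type*} [NormedAddCommGroup Y] [NormedSpace ℝ Y] [FiniteDimensional ℝ Y]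
  [MeasurableSpace Y] [BorelSpace Y]

variable {Λ : Lam M Y} {μ : Measure M} {i : Λ.ι}

/-- fibre integrals over smaller discs are finite -/
lemma fib_fin (d : Disint Λ μ i) (H : M → ℝ≥0∞) (hH : Measurable H) (hfin : ∫⁻ x, H x ∂μ ≠ ⊤) :
    ∀ᵐ t ∂d.ν, ∀ r : ℝ, r < 1 → ∫⁻ z in ball (0 : ℂ) r, H ((Λ.box i).symm (z, t)) < ⊤ := by
  have h1 : ∫⁻ t, ∫⁻ z, H ((Λ.box i).symm (z, t)) ∂d.κ t ∂d.ν ≠ ⊤ := by
    rw [← d.lintegral_eq H hH]
    exact ne_top_of_le_ne_top hfin (setLIntegral_le_lintegral _ _)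
  filter_upwards [ae_lt_top' (d.meas_fibre H hH) h1, ae_good d] with t ht hg r hr
  have hwd : ∫⁻ z, H ((Λ.box i).symm (z, t)) ∂d.κ t =
      ∫⁻ z in ball (0 : ℂ) 1, ENNReal.ofReal (Λ.ρ i (z, t) * d.h t z) *
        H ((Λ.box i).symm (z, t)) := by
    rw [hg.2.2.2.2]
    exact lintegral_withDensity_eq_lintegral_mul₀ (hg.dens_aemeas d)
      (hH.comp_aemeasurable (hg.slice_aemeas d))
  rw [hwd] at ht
  have hsub : closedBall (0 : ℂ) r ⊆ ball 0 1 := closedBall_subset_ball hr
  rcases (closedBall (0 : ℂ) r).eq_empty_or_nonempty with he | hne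
  · have : ball (0 : ℂ) r = ∅ := subset_eq_empty ball_subset_closedBall he
    rw [this]; simp
  · obtain ⟨z₀, hz₀, hmin⟩ := (isCompact_closedBall (0 : ℂ) r).exists_isMinOn hne
      ((hg.cont d).mono hsub)
    set c := Λ.ρ i (z₀, t) * d.h t z₀ with hc
    have hcpos : 0 < c := hg.pos d (hsub hz₀)
    have hle : ENNReal.ofReal c * ∫⁻ z in ball (0 : ℂ) r, H ((Λ.box i).symm (z, t)) < ⊤ := by
      refine lt_of_le_of_lt ?_ ht
      rw [← lintegral_const_mul' _ _ ENNReal.ofReal_ne_top]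
      calc ∫⁻ z in ball (0 : ℂ) r, ENNReal.ofReal c * H ((Λ.box i).symm (z, t))
          ≤ ∫⁻ z in ball (0 : ℂ) r, ENNReal.ofReal (Λ.ρ i (z, t) * d.h t z) *
              H ((Λ.box i).symm (z, t)) := by
            apply setLIntegral_mono' measurableSet_ball
            intro z hz
            gcongr
            exact hmin (ball_subset_closedBall hz)
        _ ≤ _ := lintegral_mono_set (ball_subset_ball hr.le)
    by_contra hcon
    rw [not_lt, top_le_iff] at hcon
    rw [hcon, ENNReal.mul_top (ENNReal.ofReal_pos.2 hcpos).ne'] at hle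
    exact lt_irrefl _ hle

/-- `H` in the coordinates of the box, extended by zero -/
noncomputable def Hext (Λ : Lam M Y) (i : Λ.ι) (H : M → ℝ≥0∞) : ℂ × Y → ℝ≥0∞ :=
  (Λ.box i).target.indicator (fun p => H ((Λ.box i).symm p))

lemma measurable_Hext (H : M → ℝ≥0∞) (hH : Measurable H) : Measurable (Hext Λ i H) := by
  classical
  obtain ⟨x₀⟩ := ‹Nonempty M›
  have hs : MeasurableSet (Λ.box i).target := (Λ.box i).open_target.measurableSet
  have hm : Measurable ((Λ.box i).target.piecewise (Λ.box i).symm (fun _ => x₀)) :=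
    ContinuousOn.measurable_piecewise (Λ.box i).continuousOn_symm continuousOn_const hs
  have : Hext Λ i H = (Λ.box i).target.indicator
      (fun p => H ((Λ.box i).target.piecewise (Λ.box i).symm (fun _ => x₀) p)) := by
    funext p
    unfold Hext
    by_cases hp : p ∈ (Λ.box i).target
    · rw [indicator_of_mem hp, indicator_of_mem hp, piecewise_eq_of_mem _ _ _ hp]
    · rw [indicator_of_notMem hp, indicator_of_notMem hp]
  rw [this]
  exact (hH.comp hm).indicator hs

/-- the logarithmic potential in the box -/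
noncomputable def G (Λ : Lam M Y) (i : Λ.ι) (H : M → ℝ≥0∞) (r : ℝ) (p : ℂ × Y) : ℝ≥0∞ :=
  ∫⁻ z in ball (0 : ℂ) r, K (z - p.1) * Hext Λ i H (z, p.2)

lemma measurable_G (H : M → ℝ≥0∞) (hH : Measurable H) (r : ℝ) : Measurable (G Λ i H r) := by
  have hm : Measurable (fun q : (ℂ × Y) × ℂ => K (q.2 - q.1.1) * Hext Λ i H (q.2, q.1.2)) := by
    apply Measurable.mul
    · exact measurable_K.comp (measurable_snd.sub (measurable_fst.comp measurable_fst))
    · exact (measurable_Hext H hH).comp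
        (measurable_snd.prodMk (measurable_snd.comp measurable_fst))
  exact Measurable.lintegral_prod_right' hm

open Classical in
lemma measurableSet_N (H : M → ℝ≥0∞) (hH : Measurable H) (r : ℝ) :
    MeasurableSet {x | x ∈ (Λ.box i).source ∧ G Λ i H r (Λ.box i x) = ⊤} := by
  have hs : MeasurableSet (Λ.box i).source := (Λ.box i).open_source.measurableSet
  have hm : Measurable ((Λ.box i).source.piecewise (Λ.box i) (fun _ => (0 : ℂ × Y))) :=
    ContinuousOn.measurable_piecewise (Λ.box i).continuousOn continuousOn_const hs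
  have : {x | x ∈ (Λ.box i).source ∧ G Λ i H r (Λ.box i x) = ⊤} = (Λ.box i).source ∩
      ((Λ.box i).source.piecewise (Λ.box i) (fun _ => (0 : ℂ × Y))) ⁻¹'
        (G Λ i H r ⁻¹' {⊤}) := by
    ext x
    constructor
    · rintro ⟨h1, h2⟩
      refine ⟨h1, ?_⟩
      rw [mem_preimage, piecewise_eq_of_mem _ _ _ h1]
      exact h2
    · rintro ⟨h1, h2⟩
      rw [mem_preimage, piecewise_eq_of_mem _ _ _ h1] at h2
      exact ⟨h1, h2⟩
  rw [this]
  exact hs.inter (hm (measurable_G H hH r (measurableSet_singleton _)))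

/-- the logarithmic potentials are finite at almost every point -/
lemma null_N (d : Disint Λ μ i) (H : M → ℝ≥0∞) (hH : Measurable H) (hfin : ∫⁻ x, H x ∂μ ≠ ⊤)
    (r : ℝ) (hr : r < 1) :
    μ {x | x ∈ (Λ.box i).source ∧ G Λ i H r (Λ.box i x) = ⊤} = 0 := by
  have hsub : {x | x ∈ (Λ.box i).source ∧ G Λ i H r (Λ.box i x) = ⊤} ⊆
      {x | x ∈ (Λ.box i).source ∧ G Λ i H r (Λ.box i x) = ⊤} ∩ (Λ.box i).source :=
    fun x hx => ⟨hx, hx.1⟩
  refine measure_mono_null hsub ?_
  rw [null_iff d _ (measurableSet_N H hH r)]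
  filter_upwards [fib_fin d H hH hfin, ae_good d] with t ht hg
  have hb : ball (0 : ℂ) r ⊆ ball 0 1 := ball_subset_ball hr.le
  have hfin2 : ∫⁻ z in ball (0 : ℂ) r, Hext Λ i H (z, t) < ⊤ := by
    refine lt_of_le_of_lt (le_of_eq ?_) (ht r hr)
    apply setLIntegral_congr_fun measurableSet_ball
    intro z hz
    exact indicator_of_mem (mem_target (hb hz) hg.1) _
  have hHm : Measurable (fun z => Hext Λ i H (z, t)) :=
    (measurable_Hext H hH).comp (measurable_id.prodMk measurable_const)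
  have hint : ∫⁻ w in ball (0 : ℂ) 1, G Λ i H r (w, t) < ⊤ := by
    have hm : Measurable (fun q : ℂ × ℂ => K (q.2 - q.1) * Hext Λ i H (q.2, t)) :=
      (measurable_K.comp (measurable_snd.sub measurable_fst)).mul (hHm.comp measurable_snd)
    calc ∫⁻ w in ball (0 : ℂ) 1, G Λ i H r (w, t)
        = ∫⁻ w in ball (0 : ℂ) 1, ∫⁻ z in ball (0 : ℂ) r, K (z - w) * Hext Λ i H (z, t) := rfl
      _ = ∫⁻ z in ball (0 : ℂ) r, ∫⁻ w in ball (0 : ℂ) 1, K (z - w) * Hext Λ i H (z, t) :=
          lintegral_lintegral_swap hm.aemeasurable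
      _ ≤ ∫⁻ z in ball (0 : ℂ) r, KI * Hext Λ i H (z, t) := by
          apply setLIntegral_mono' measurableSet_ball
          intro z hz
          have hKm : Measurable (fun w => K (z - w)) :=
            measurable_K.comp (measurable_const.sub measurable_id)
          rw [lintegral_mul_const _ hKm]
          gcongr
          exact K_int (hb hz)
      _ = KI * ∫⁻ z in ball (0 : ℂ) r, Hext Λ i H (z, t) := lintegral_const_mul _ hHm
      _ < ⊤ := ENNReal.mul_lt_top KI_lt_top hfin2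
  have hGm : Measurable (fun w => G Λ i H r (w, t)) :=
    (measurable_G H hH r).comp (measurable_id.prodMk measurable_const)
  filter_upwards [ae_lt_top hGm hint.ne, ae_restrict_mem measurableSet_ball] with z hz hzb
  rintro ⟨-, h⟩
  rw [box_symm hzb hg.1] at h
  exact hz.ne h

/-- a sequence of radii -/
noncomputable def rad (n : ℕ) : ℝ := 1 - 1 / ((n : ℝ) + 1)

lemma rad_lt (n : ℕ) : rad n < 1 := by
  unfold rad
  have : (0 : ℝ) < 1 / ((n : ℝ) + 1) := by positivity
  linarith

lemma exists_rad {r : ℝ} (hr : r < 1) : ∃ n, r < rad n := by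
  obtain ⟨n, hn⟩ := exists_nat_one_div_lt (sub_pos.2 hr)
  exact ⟨n, by unfold rad; linarith⟩

/-- Leafwise transfer of integrability. -/
theorem transfer (Λ : Lam M Y) (μ : Measure M) [IsFiniteMeasure μ] (hreg : μ Λ.regᶜ = 0)
    (dis : ∀ i, Disint Λ μ i) (H : M → ℝ≥0∞) (hH : Measurable H) (hfin : ∫⁻ x, H x ∂μ ≠ ⊤) :
    ∀ᵐ a ∂μ, H a < ⊤ ∧ ∀ φ σ, Λ.IsDisc φ σ → φ 0 = a → ∀ s : ℝ, s < 1 →
      ∫⁻ ξ in ball (0 : ℂ) s, (1 + ENNReal.ofReal (Real.log (1 / ‖ξ‖))) * H (φ ξ) < ⊤ := by
  -- the bad plaques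
  set T : Λ.ι → Set Y := fun i => {t | ¬ ∀ r : ℝ, r < 1 →
    ∫⁻ z in ball (0 : ℂ) r, H ((Λ.box i).symm (z, t)) < ⊤} with hT
  have hT0 : ∀ i, (dis i).ν (T i) = 0 := fun i => ae_iff.1 (fib_fin (dis i) H hH hfin)
  have hS0 : μ (sat Λ (plq Λ T)) = 0 := sat_null dis (leafOpen_plq T) (plq_null dis T hT0)
  have hS1 : ∀ᵐ a ∂μ, a ∉ sat Λ (plq Λ T) := by
    rw [ae_iff]
    simpa using hS0
  have hN : ∀ᵐ a ∂μ, ∀ i n, ¬ (a ∈ (Λ.box i).source ∧ G Λ i H (rad n) (Λ.box i a) = ⊤) := by
    rw [ae_all_iff]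
    intro i
    rw [ae_all_iff]
    intro n
    rw [ae_iff]
    simpa using null_N (dis i) H hH hfin (rad n) (rad_lt n)
  filter_upwards [ae_lt_top hH hfin, hS1, hN] with a ha haS haN
  refine ⟨ha, ?_⟩
  intro φ σ hφ hφ0 s hs
  have havoid := disc_avoid hφ (by rw [hφ0]; exact haS)
  -- good plaques along the disc
  have hgood : ∀ ξ ∈ ball (0 : ℂ) 1, ∀ i, φ ξ ∈ (Λ.box i).source → ∀ r : ℝ, r < 1 →
      ∫⁻ z in ball (0 : ℂ) r, H ((Λ.box i).symm (z, (Λ.box i (φ ξ)).2)) < ⊤ := by
    intro ξ hξ i hi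
    by_contra hcon
    exact havoid ξ hξ (mem_iUnion.2 ⟨0, i, hi, hcon⟩)
  -- compactness
  have hcomp : ∫⁻ ξ in closedBall (0 : ℂ) s,
      (1 + ENNReal.ofReal (Real.log (1 / ‖ξ‖))) * H (φ ξ) < ⊤ := by
    refine (isCompact_closedBall (0 : ℂ) s).induction_on
      (p := fun S => ∫⁻ ξ in S, (1 + ENNReal.ofReal (Real.log (1 / ‖ξ‖))) * H (φ ξ) < ⊤)
      ?_ ?_ ?_ ?_
    · simp
    · intro S S' hSS' h
      exact lt_of_le_of_lt (lintegral_mono_set hSS') h
    · intro S S' h h'
      exact lt_of_le_of_lt (lintegral_union_le _ _ _) (ENNReal.add_lt_top.2 ⟨h, h'⟩)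
    · intro ξ hξ
      have hξ1 : ξ ∈ ball (0 : ℂ) 1 := closedBall_subset_ball hs hξ
      obtain ⟨i, t, ht, h, han, hd, hb, he⟩ := local_disc hφ hξ1
      have hself := he.self_of_nhds
      obtain ⟨n, hn⟩ := exists_rad (by simpa using hb : ‖h ξ‖ < 1)
      have hV : ball (0 : ℂ) (rad n) ∈ 𝓝 (h ξ) := isOpen_ball.mem_nhds (by simpa using hn)
      have hcov := cov han hd hV
      have hC : (ENNReal.ofReal ((‖deriv h ξ‖ / 2) ^ 2))⁻¹ < ⊤ := by
        rw [ENNReal.inv_lt_top]
        apply ENNReal.ofReal_pos.2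
        have := norm_pos_iff.2 hd
        positivity
      have hHm : Measurable (fun z => Hext Λ i H (z, t)) :=
        (measurable_Hext H hH).comp (measurable_id.prodMk measurable_const)
      have hHe : ∀ z ∈ ball (0 : ℂ) 1, Hext Λ i H (z, t) = H ((Λ.box i).symm (z, t)) :=
        fun z hz => indicator_of_mem (mem_target hz ht) _
      have hF : ∫⁻ z in ball (0 : ℂ) (rad n), Hext Λ i H (z, t) < ⊤ := by
        have h2 := hgood ξ hξ1 i hself.2.2.1 (rad n) (rad_lt n)
        rw [hself.2.2.2] at h2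
        refine lt_of_le_of_lt (le_of_eq ?_) h2
        apply setLIntegral_congr_fun measurableSet_ball
        intro z hz
        exact hHe z (ball_subset_ball (rad_lt n).le hz)
      -- a function `g` dominating near `ξ`
      have hmain : ∀ g : ℂ → ℝ≥0∞, ∫⁻ z in ball (0 : ℂ) (rad n), g z < ⊤ →
          (∀ᶠ ζ in 𝓝 ξ, (1 + ENNReal.ofReal (Real.log (1 / ‖ζ‖))) * H (φ ζ) ≤ g (h ζ)) →
          ∃ U ∈ 𝓝[closedBall 0 s] ξ,
            ∫⁻ ξ in U, (1 + ENNReal.ofReal (Real.log (1 / ‖ξ‖))) * H (φ ξ) < ⊤ := by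
        intro g hg hle
        obtain ⟨δ₀, hδ₀, hδ₀'⟩ := Metric.eventually_nhds_iff_ball.1 hle
        obtain ⟨δ, hδ, hδ1, hδ2⟩ := (hcov.and (Ioo_mem_nhdsGT hδ₀)).exists
        refine ⟨ball ξ δ, mem_nhdsWithin_of_mem_nhds (ball_mem_nhds ξ hδ1), ?_⟩
        calc ∫⁻ ζ in ball ξ δ, (1 + ENNReal.ofReal (Real.log (1 / ‖ζ‖))) * H (φ ζ)
            ≤ ∫⁻ ζ in ball ξ δ, g (h ζ) := by
              apply setLIntegral_mono' measurableSet_ball
              intro ζ hζ
              exact hδ₀' ζ (ball_subset_ball hδ2.le hζ)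
          _ ≤ _ := hδ g
          _ < ⊤ := ENNReal.mul_lt_top hC hg
      by_cases hξ0 : ξ = 0
      · -- the centre
        subst hξ0
        have hG : G Λ i H (rad n) (h 0, t) < ⊤ := by
          have := haN i n
          rw [← hφ0, hself.2.2.2] at this
          rw [lt_top_iff_ne_top]
          intro hcon
          exact this ⟨hself.2.2.1, hcon⟩
        -- Lipschitz bound
        obtain ⟨C0, hC0, hlip⟩ : ∃ C0 : ℝ, 1 ≤ C0 ∧ ∀ᶠ ζ in 𝓝 (0 : ℂ),
            ‖h ζ - h 0‖ ≤ C0 * ‖ζ‖ := by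
          have h1 := han.differentiableAt.isBigO_sub
          obtain ⟨C, hC⟩ := h1.bound
          refine ⟨max C 1, le_max_right _ _, ?_⟩
          filter_upwards [hC] with ζ hζ
          rw [sub_zero] at hζ
          exact hζ.trans (by gcongr; exact le_max_left _ _)
        apply hmain (fun z => (1 + ENNReal.ofReal (Real.log C0) + K (z - h 0)) *
          Hext Λ i H (z, t))
        · simp only [add_mul (1 + ENNReal.ofReal (Real.log C0))]
          have hm1 : Measurable (fun z => (1 + ENNReal.ofReal (Real.log C0)) *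
              Hext Λ i H (z, t)) := measurable_const.mul hHm
          rw [lintegral_add_left hm1, lintegral_const_mul _ hHm]
          apply ENNReal.add_lt_top.2
          refine ⟨ENNReal.mul_lt_top ?_ hF, hG⟩
          exact ENNReal.add_lt_top.2 ⟨ENNReal.one_lt_top, ENNReal.ofReal_lt_top⟩
        · have hne : ∀ᶠ ζ in 𝓝 (0 : ℂ), ζ ≠ 0 → h ζ ≠ h 0 := by
            have := han.differentiableAt.hasDerivAt.eventually_ne hd (c := h 0)
            exact eventually_nhdsWithin_iff.1 this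
          filter_upwards [he, hlip, hne] with ζ h1 h2 h3
          rw [hHe _ h1.2.1, ← h1.1]
          refine mul_le_mul' ?_ le_rfl
          rw [add_assoc]
          refine add_le_add le_rfl ?_
          unfold K
          by_cases hζ : ζ = 0
          · subst hζ; simp
          have hpos : 0 < ‖ζ‖ := norm_pos_iff.2 hζ
          have hpos2 : 0 < ‖h ζ - h 0‖ := norm_pos_iff.2 (sub_ne_zero.2 (h3 hζ))
          have hle : Real.log (1 / ‖ζ‖) ≤ Real.log C0 + Real.log (2 / ‖h ζ - h 0‖) := by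
            rw [← Real.log_mul (by positivity) (by positivity)]
            apply Real.log_le_log (by positivity)
            rw [div_le_iff₀ hpos, mul_assoc, div_mul_eq_mul_div, ← mul_div_assoc,
              le_div_iff₀ hpos2]
            nlinarith
          calc ENNReal.ofReal (Real.log (1 / ‖ζ‖))
              ≤ ENNReal.ofReal (Real.log C0 + Real.log (2 / ‖h ζ - h 0‖)) :=
                ENNReal.ofReal_le_ofReal hle
            _ ≤ _ := ENNReal.ofReal_add_le
      · -- away from the centre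
        have hpos : 0 < ‖ξ‖ := norm_pos_iff.2 hξ0
        set W : ℝ≥0∞ := 1 + ENNReal.ofReal (Real.log (2 / ‖ξ‖)) with hW
        have hWt : W < ⊤ := ENNReal.add_lt_top.2 ⟨ENNReal.one_lt_top, ENNReal.ofReal_lt_top⟩
        apply hmain (fun z => W * Hext Λ i H (z, t))
        · rw [lintegral_const_mul _ hHm]
          exact ENNReal.mul_lt_top hWt hF
        · have h1 : ∀ᶠ ζ in 𝓝 ξ, ‖ξ‖ / 2 < ‖ζ‖ :=
            continuous_norm.continuousAt.eventually (lt_mem_nhds (by linarith))
          filter_upwards [he, h1] with ζ h2 h3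
          rw [hHe _ h2.2.1, ← h2.1]
          refine mul_le_mul' ?_ le_rfl
          rw [hW]
          refine add_le_add le_rfl (ENNReal.ofReal_le_ofReal ?_)
          have h4 : 0 < ‖ζ‖ := by linarith
          apply Real.log_le_log (by positivity)
          rw [div_le_div_iff₀ h4 hpos]
          linarith
  exact lt_of_le_of_lt (lintegral_mono_set ball_subset_closedBall) hcomp

end Pool.Agent.H38.NevQ2
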